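import Pool.Agent.N741.LD.Stm

/-!
LD/1: a weak form of the theorem of Bezout.
-/

set_option autoImplicit false

namespace Pool.Agent.N157.LD

open Finset Polynomial
open scoped Polynomial.Bivariate
open Pool.Agent.N741.LD

theorem coeff_coeff_swap (A : ℤ[X][Y]) (i j : ℕ) :
    ((Bivariate.swap A).coeff i).coeff j = (A.coeff j).coeff i := by
  induction A using Polynomial.induction_on' with
  | add p q hp hq => rw [map_add, coeff_add, coeff_add, hp, hq, coeff_add, coeff_add]
  | monomial n f =>
    induction f using Polynomial.induction_on' with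
    | add p q hp hq =>
      rw [map_add (monomial n), map_add, coeff_add, coeff_add, hp, hq, coeff_add, coeff_add]
    | monomial m r =>
      rw [Bivariate.swap_monomial_monomial]
      simp only [coeff_monomial]
      by_cases h1 : m = i <;> by_cases h2 : n = j <;> simp [h1, h2, coeff_monomial]

theorem natDegree_coeff_le (A : ℤ[X][Y]) (j : ℕ) : (A.coeff j).natDegree ≤ dX A := by
  rw [natDegree_le_iff_coeff_eq_zero]
  intro i hi
  rw [← coeff_coeff_swap, coeff_eq_zero_of_natDegree_lt hi, coeff_zero]

theorem natDegree_det_le {m : ℕ} (M : Matrix (Fin m) (Fin m) ℤ[X]) (b : Fin m → ℕ)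
    (h : ∀ i j, (M i j).natDegree ≤ b j) : M.det.natDegree ≤ ∑ j, b j := by
  rw [Matrix.det_apply]
  apply natDegree_sum_le_of_forall_le
  intro σ _
  refine (natDegree_smul_le _ _).trans ?_
  exact (natDegree_prod_le _ _).trans (sum_le_sum fun i _ => h _ _)

theorem natDegree_resultant_le (f g : ℤ[X][X]) (m n a b : ℕ) (hf : ∀ i, (f.coeff i).natDegree ≤ a)
    (hg : ∀ i, (g.coeff i).natDegree ≤ b) : (resultant f g m n).natDegree ≤ m * b + n * a := by
  unfold resultant
  refine (natDegree_det_le _ (fun j => j.addCases (fun _ => b) (fun _ => a)) ?_).trans ?_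
  · intro i j
    refine j.addCases ?_ ?_
    · intro j
      rw [sylvester, Matrix.of_apply, Fin.addCases_left, Fin.addCases_left]
      split_ifs
      · exact hg _
      · simp
    · intro j
      rw [sylvester, Matrix.of_apply, Fin.addCases_right, Fin.addCases_right]
      split_ifs
      · exact hf _
      · simp
  · rw [Fin.sum_univ_add]
    simp

theorem resultant_ne_zero (A N : ℤ[X][Y]) (hA : Irreducible A) (h1 : 1 ≤ A.natDegree)
    (hN : ¬ A ∣ N) : resultant A N ≠ 0 := by
  classical
  let _ : NormalizedGCDMonoid ℤ[X] := Classical.choice inferInstance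
  have hp : A.IsPrimitive := hA.isPrimitive (by omega)
  intro h0
  set φ : ℤ[X] →+* FractionRing ℤ[X] := algebraMap ℤ[X] (FractionRing ℤ[X]) with hφ
  have hinj : Function.Injective φ := IsFractionRing.injective ℤ[X] (FractionRing ℤ[X])
  have h2 : resultant (A.map φ) (N.map φ) = 0 := by
    rw [natDegree_map_eq_of_injective hinj, natDegree_map_eq_of_injective hinj, resultant_map_map,
      h0, map_zero]
  rw [resultant_eq_zero_iff] at h2
  have hirr : Irreducible (A.map φ) :=
    (hp.irreducible_iff_irreducible_map_fraction_map (K := FractionRing ℤ[X])).1 hA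
  rcases EuclideanDomain.dvd_or_coprime (A.map φ) (N.map φ) hirr with h | h
  · exact hN (hp.dvd_of_fraction_map_dvd_fraction_map (K := FractionRing ℤ[X]) h)
  · exact h2.2 h

theorem bez : Bez := by
  classical
  intro A N a b d e hA h1 hN ha hb hd he S hS
  set R := resultant A N with hR
  have hR0 : R ≠ 0 := resultant_ne_zero A N hA h1 hN
  have hdeg : R.natDegree ≤ d * b + e * a := by
    refine (natDegree_resultant_le A N _ _ a b (fun i => (natDegree_coeff_le A i).trans ha)
      (fun i => (natDegree_coeff_le N i).trans hb)).trans ?_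
    gcongr
  obtain ⟨p, q, -, -, hpq⟩ := exists_mul_add_mul_eq_C_resultant A N le_rfl le_rfl
    (Or.inl (by omega))
  have hroot : ∀ v ∈ S, R.eval v.1 = 0 := by
    intro v hv
    obtain ⟨hv1, hv2⟩ := hS v hv
    have h2 := congrArg (fun G : ℤ[X][Y] => G.evalEval v.1 v.2) hpq
    simp only [evalEval_add, evalEval_mul, evalEval_C, hv1, hv2, zero_mul, zero_add] at h2
    exact h2.symm
  have himg : (S.image Prod.fst).card ≤ d * b + e * a := by
    refine le_trans ?_ hdeg
    have hsub : S.image Prod.fst ⊆ R.roots.toFinset := by
      intro x hx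
      obtain ⟨v, hv, rfl⟩ := Finset.mem_image.1 hx
      rw [Multiset.mem_toFinset, mem_roots hR0]
      exact hroot v hv
    exact (card_le_card hsub).trans ((Multiset.toFinset_card_le _).trans (card_roots' _))
  have hfib : ∀ x ∈ S.image Prod.fst, (S.filter (fun v => v.1 = x)).card ≤ d := by
    intro x _
    set P : ℤ[X] := A.map (evalRingHom x) with hP
    have hP0 : P ≠ 0 := by
      intro h0
      have hdvd : C (X - C x) ∣ A := by
        rw [C_dvd_iff_dvd_coeff]
        intro i
        rw [dvd_iff_isRoot]
        have := congrArg (fun Q : ℤ[X] => Q.coeff i) h0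
        simpa [hP, coeff_map] using this
      obtain ⟨B, hB⟩ := hdvd
      rcases hA.isUnit_or_isUnit hB with h | h
      · rw [isUnit_C] at h
        have h3 := natDegree_eq_zero_of_isUnit h
        rw [natDegree_X_sub_C] at h3
        exact one_ne_zero h3
      · have h3 := natDegree_eq_zero_of_isUnit h
        have h4 : A.natDegree = 0 := by
          rw [hB]
          refine Nat.le_zero.1 ((natDegree_C_mul_le _ _).trans h3.le)
        omega
    have hPd : P.natDegree ≤ d := (natDegree_map_le).trans hd
    have hinj : Set.InjOn Prod.snd ((S.filter (fun v => v.1 = x) : Finset (ℤ × ℤ)) : Set (ℤ × ℤ)) := by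
      intro u hu v hv huv
      rw [Finset.mem_coe, Finset.mem_filter] at hu hv
      exact Prod.ext (hu.2.trans hv.2.symm) huv
    rw [← card_image_of_injOn hinj]
    have hsub : (S.filter (fun v => v.1 = x)).image Prod.snd ⊆ P.roots.toFinset := by
      intro y hy
      obtain ⟨v, hv, rfl⟩ := Finset.mem_image.1 hy
      rw [Finset.mem_filter] at hv
      rw [Multiset.mem_toFinset, mem_roots hP0, IsRoot.def]
      have h5 := (hS v hv.1).1
      rw [hv.2] at h5
      rw [hP, map_evalRingHom_eval]
      exact h5
    exact (card_le_card hsub).trans ((Multiset.toFinset_card_le _).trans ((card_roots' _).trans hPd))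
  have h6 := Finset.card_le_mul_card_image S d hfib
  calc S.card ≤ d * (S.image Prod.fst).card := h6
    _ ≤ d * (d * b + e * a) := by gcongr
    _ = (d * b + e * a) * d := by ring

end Pool.Agent.N157.LD
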